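import Mathlib

namespace Pool.Agent.Results.MP_eb4d96_pr.ComplexDobrushin

open Finset
open scoped Classical ENNReal NNReal

set_option linter.unusedSectionVars false

noncomputable section

variable {V : Type} [Fintype V]

/-- `I` is an independent set of `G`. -/
def Indep (G : SimpleGraph V) (I : Finset V) : Prop := ∀ x ∈ I, ∀ y ∈ I, ¬ G.Adj x y

/-- The state space `Ω`: the independent sets of `G`. -/
abbrev Om (G : SimpleGraph V) : Type := {I : Finset V // Indep G I}

/-- The single-site heat-bath (Glauber) transition matrix `P_{G,w}` on `Ω`. -/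
def transition (G : SimpleGraph V) (w : V → ℂ) : Matrix (Om G) (Om G) ℂ := fun I J =>
  (1 / (Fintype.card V : ℂ)) * ∑ x : V,
    if (∀ y ∈ I.1, ¬ G.Adj x y) then
      (w x / (1 + w x)) * (if J.1 = insert x I.1 then 1 else 0)
        + (1 / (1 + w x)) * (if J.1 = I.1.erase x then 1 else 0)
    else (if J.1 = I.1.erase x then 1 else 0)

/-- The line of constant functions on `Ω`. -/
def constants (G : SimpleGraph V) : Submodule ℂ (Om G → ℂ) :=
  Submodule.span ℂ {fun _ => (1 : ℂ)}

/-- `spr(P_{G,w}) < 1`: the matrix `P_{G,w}` maps constants to constants, and the linear map it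
induces on `ℂ^Ω / ℂ 1` has spectral radius `< 1`. -/
def SprLtOne (G : SimpleGraph V) (w : V → ℂ) : Prop :=
  ∃ h : constants G ≤ (constants G).comap (transition G w).mulVecLin,
    spectralRadius ℂ
      ((constants G).mapQ (constants G) (transition G w).mulVecLin h :
        Module.End ℂ ((Om G → ℂ) ⧸ constants G)) < 1

/-! ### Functions on all finsets -/

/-- extension by zero of a function on `Ω` -/
def ext (G : SimpleGraph V) (f : Om G → ℂ) (S : Finset V) : ℂ :=
  if h : Indep G S then f ⟨S, h⟩ else 0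

lemma sum_ind (G : SimpleGraph V) (f : Om G → ℂ) (S : Finset V) :
    ∑ J : Om G, (if J.1 = S then (1 : ℂ) else 0) * f J = ext G f S := by
  unfold ext
  split_ifs with h
  · rw [Finset.sum_eq_single (⟨S, h⟩ : Om G)]
    · simp
    · intro J _ hJ
      have : J.1 ≠ S := fun e => hJ (Subtype.ext e)
      simp [this]
    · intro h'; exact absurd (Finset.mem_univ _) h'
  · apply Finset.sum_eq_zero
    intro J _
    have : J.1 ≠ S := fun e => h (e ▸ J.2)
    simp [this]

/-- The single-site update acting on functions. -/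
def upd (G : SimpleGraph V) (p : ℂ) (x : V) (g : Finset V → ℂ) (I : Finset V) : ℂ :=
  g (I.erase x) + if (∀ y ∈ I, ¬ G.Adj x y) then p * (g (insert x I) - g (I.erase x)) else 0

lemma mulVec_eq (G : SimpleGraph V) (w : V → ℂ) (hw : ∀ x, w x ≠ -1) (f : Om G → ℂ) (I : Om G) :
    (transition G w).mulVec f I =
      (1 / (Fintype.card V : ℂ)) * ∑ x : V, upd G (w x / (1 + w x)) x (ext G f) I.1 := by
  have e1 : (transition G w).mulVec f I = ∑ J : Om G, transition G w I J * f J := rfl
  rw [e1]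
  unfold transition
  simp only [mul_assoc, Finset.sum_mul]
  rw [← Finset.mul_sum, Finset.sum_comm]
  congr 1
  apply Finset.sum_congr rfl
  intro x _
  have hx : 1 + w x ≠ 0 := by
    intro h; apply hw x; linear_combination h
  unfold upd
  split_ifs with hfree
  · have : ∀ J : Om G, ((w x / (1 + w x)) * (if J.1 = insert x I.1 then (1:ℂ) else 0)
        + (1 / (1 + w x)) * (if J.1 = I.1.erase x then 1 else 0)) * f J
        = (w x / (1 + w x)) * ((if J.1 = insert x I.1 then (1:ℂ) else 0) * f J)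
        + (1 / (1 + w x)) * ((if J.1 = I.1.erase x then (1:ℂ) else 0) * f J) := by
      intro J; ring
    simp only [this]
    rw [Finset.sum_add_distrib, ← Finset.mul_sum, ← Finset.mul_sum, sum_ind, sum_ind]
    field_simp
    ring
  · rw [sum_ind]; ring

/-! ### Mixed differences -/

/-- The mixed difference `∇_A g (I)`. -/
def nab (A : Finset V) (g : Finset V → ℂ) (I : Finset V) : ℂ :=
  ∑ C ∈ A.powerset, (-1 : ℂ) ^ (A \ C).card * g (I ∪ C)

lemma nab_insert {A : Finset V} {x : V} (hx : x ∉ A) (g : Finset V → ℂ) (I : Finset V) :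
    nab (insert x A) g I = nab A g (insert x I) - nab A g I := by
  unfold nab
  rw [Finset.sum_powerset_insert hx, add_comm, sub_eq_add_neg, ← Finset.sum_neg_distrib]
  congr 1
  · apply Finset.sum_congr rfl
    intro C hC
    have hCA := Finset.mem_powerset.1 hC
    have hxC : x ∉ C := fun h => hx (hCA h)
    have e1 : insert x A \ insert x C = A \ C := by
      ext y; simp only [mem_sdiff, mem_insert]
      constructor
      · rintro ⟨h1 | h1, h2⟩
        · exact absurd (Or.inl h1) h2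
        · exact ⟨h1, fun h => h2 (Or.inr h)⟩
      · rintro ⟨h1, h2⟩
        refine ⟨Or.inr h1, ?_⟩
        rintro (h | h)
        · exact hx (h ▸ h1)
        · exact h2 h
    have e2 : I ∪ insert x C = insert x I ∪ C := by
      ext y; simp only [mem_union, mem_insert]; tauto
    rw [e1, e2]
  · apply Finset.sum_congr rfl
    intro C hC
    have hCA := Finset.mem_powerset.1 hC
    have hxC : x ∉ C := fun h => hx (hCA h)
    have e1 : insert x A \ C = insert x (A \ C) := by
      ext y; simp only [mem_sdiff, mem_insert]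
      constructor
      · rintro ⟨h1 | h1, h2⟩
        · exact Or.inl h1
        · exact Or.inr ⟨h1, h2⟩
      · rintro (h1 | h1)
        · exact ⟨Or.inl h1, h1 ▸ hxC⟩
        · exact ⟨Or.inr h1.1, h1.2⟩
    have e2 : (insert x (A \ C)).card = (A \ C).card + 1 := by
      apply Finset.card_insert_of_notMem
      simp [hx]
    rw [e1, e2, pow_succ]
    ring

lemma upd_insert (G : SimpleGraph V) (p : ℂ) (x : V) (g : Finset V → ℂ) (S : Finset V) :
    upd G p x g (insert x S) = upd G p x g S := by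
  unfold upd
  have e1 : (insert x S).erase x = S.erase x := by
    ext y; simp only [mem_erase, mem_insert]; tauto
  have e2 : (∀ y ∈ insert x S, ¬ G.Adj x y) ↔ (∀ y ∈ S, ¬ G.Adj x y) := by
    constructor
    · intro h y hy; exact h y (mem_insert_of_mem hy)
    · intro h y hy
      rcases mem_insert.1 hy with rfl | hy
      · exact G.loopless.irrefl _
      · exact h y hy
  rw [e1, Finset.insert_idem]
  simp only [e2]

lemma nab_upd_mem (G : SimpleGraph V) (p : ℂ) {x : V} {A : Finset V} (hx : x ∈ A)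
    (g : Finset V → ℂ) (I : Finset V) : nab A (upd G p x g) I = 0 := by
  have hA : A = insert x (A.erase x) := (Finset.insert_erase hx).symm
  rw [hA, nab_insert (Finset.notMem_erase x A), sub_eq_zero]
  unfold nab
  apply Finset.sum_congr rfl
  intro C _
  have : insert x I ∪ C = insert x (I ∪ C) := by
    ext y; simp only [mem_union, mem_insert]; tauto
  rw [this, upd_insert]

/-- neighbours of `x` -/
def Nb (G : SimpleGraph V) (x : V) : Finset V := univ.filter (fun y => G.Adj x y)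

lemma mem_Nb {G : SimpleGraph V} {x y : V} : y ∈ Nb G x ↔ G.Adj x y := by
  simp [Nb]

lemma nab_upd_not_mem (G : SimpleGraph V) (p : ℂ) {x : V} {A : Finset V} (hx : x ∉ A)
    (g : Finset V → ℂ) (I : Finset V) :
    nab A (upd G p x g) I = nab A g (I.erase x) +
      if (∀ y ∈ I, ¬ G.Adj x y) then
        p * ((-1 : ℂ) ^ (A ∩ Nb G x).card * nab (insert x (A \ Nb G x)) g (I.erase x))
      else 0 := by
  have hx' : x ∉ A \ Nb G x := by simp [hx]
  have key : ∀ C ∈ A.powerset, (-1 : ℂ) ^ (A \ C).card * upd G p x g (I ∪ C) =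
      (-1 : ℂ) ^ (A \ C).card * g (I.erase x ∪ C) +
      (if (∀ y ∈ I, ¬ G.Adj x y) then
        (if (∀ y ∈ C, ¬ G.Adj x y) then
          p * ((-1 : ℂ) ^ (A \ C).card * (g (insert x (I.erase x) ∪ C) - g (I.erase x ∪ C)))
        else 0) else 0) := by
    intro C hC
    have hCA := Finset.mem_powerset.1 hC
    have hxC : x ∉ C := fun h => hx (hCA h)
    have e1 : (I ∪ C).erase x = I.erase x ∪ C := by
      ext y; simp only [mem_erase, mem_union]
      constructor
      · rintro ⟨h1, h2 | h2⟩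
        · exact Or.inl ⟨h1, h2⟩
        · exact Or.inr h2
      · rintro (⟨h1, h2⟩ | h2)
        · exact ⟨h1, Or.inl h2⟩
        · exact ⟨fun h => hxC (h ▸ h2), Or.inr h2⟩
    have e2 : insert x (I ∪ C) = insert x (I.erase x) ∪ C := by
      ext y; simp only [mem_insert, mem_erase, mem_union]; tauto
    have e3 : (∀ y ∈ I ∪ C, ¬ G.Adj x y) ↔ ((∀ y ∈ I, ¬ G.Adj x y) ∧ (∀ y ∈ C, ¬ G.Adj x y)) := by
      simp only [mem_union]
      constructor
      · intro h; exact ⟨fun y hy => h y (Or.inl hy), fun y hy => h y (Or.inr hy)⟩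
      · rintro ⟨h1, h2⟩ y (hy | hy)
        · exact h1 y hy
        · exact h2 y hy
    unfold upd
    rw [e1, e2]
    simp only [e3]
    by_cases h1 : ∀ y ∈ I, ¬ G.Adj x y
    · by_cases h2 : ∀ y ∈ C, ¬ G.Adj x y
      · rw [if_pos ⟨h1, h2⟩, if_pos h1, if_pos h2]; ring
      · rw [if_neg (fun h => h2 h.2), if_pos h1, if_neg h2]; ring
    · rw [if_neg (fun h => h1 h.1), if_neg h1]; ring
  unfold nab at *
  rw [Finset.sum_congr rfl key, Finset.sum_add_distrib]
  congr 1
  by_cases h1 : ∀ y ∈ I, ¬ G.Adj x y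
  · simp only [if_pos h1]
    rw [← Finset.sum_filter]
    have e4 : A.powerset.filter (fun C => ∀ y ∈ C, ¬ G.Adj x y) = (A \ Nb G x).powerset := by
      ext C
      simp only [mem_filter, mem_powerset]
      constructor
      · rintro ⟨h, h'⟩ y hy
        exact mem_sdiff.2 ⟨h hy, fun hn => h' y hy (mem_Nb.1 hn)⟩
      · intro h
        refine ⟨fun y hy => (mem_sdiff.1 (h hy)).1, fun y hy hn => ?_⟩
        exact (mem_sdiff.1 (h hy)).2 (mem_Nb.2 hn)
    rw [e4]
    have e5 := nab_insert hx' g (I.erase x)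
    unfold nab at e5
    rw [e5, ← Finset.sum_sub_distrib, Finset.mul_sum, Finset.mul_sum]
    apply Finset.sum_congr rfl
    intro C hC
    have hCA := Finset.mem_powerset.1 hC
    have e6 : (A \ C).card = (A ∩ Nb G x).card + ((A \ Nb G x) \ C).card := by
      rw [← Finset.card_union_of_disjoint]
      · congr 1
        ext y
        simp only [mem_sdiff, mem_union, mem_inter]
        constructor
        · rintro ⟨h1, h2⟩
          by_cases hn : y ∈ Nb G x
          · exact Or.inl ⟨h1, hn⟩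
          · exact Or.inr ⟨⟨h1, hn⟩, h2⟩
        · rintro (⟨h1, h2⟩ | ⟨⟨h1, h2⟩, h3⟩)
          · exact ⟨h1, fun hc => (mem_sdiff.1 (hCA hc)).2 h2⟩
          · exact ⟨h1, h3⟩
      · rw [Finset.disjoint_left]
        intro y hy hy'
        simp only [mem_inter, mem_sdiff] at hy hy'
        exact hy'.1.2 hy.2
    rw [e6, pow_add]
    ring
  · simp only [if_neg h1, Finset.sum_const_zero]

lemma nab_const {A : Finset V} (hA : A.Nonempty) (c : ℂ) (I : Finset V) :
    nab A (fun _ => c) I = 0 := by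
  obtain ⟨x, hx⟩ := hA
  have hA : A = insert x (A.erase x) := (Finset.insert_erase hx).symm
  rw [hA, nab_insert (Finset.notMem_erase x A), sub_eq_zero]
  rfl

/-! ### Sup norms of mixed differences -/

/-- `sup |∇_A g (I)|` over the admissible `I`. -/
def FF (G : SimpleGraph V) (g : Finset V → ℂ) (A : Finset V) : ℝ≥0 :=
  (univ.filter (fun I : Finset V => Disjoint I A ∧ Indep G (I ∪ A))).sup
    (fun I => ‖nab A g I‖₊)

lemma le_FF {G : SimpleGraph V} {g : Finset V → ℂ} {A I : Finset V} (h1 : Disjoint I A)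
    (h2 : Indep G (I ∪ A)) : ‖nab A g I‖ ≤ (FF G g A : ℝ) := by
  have : ‖nab A g I‖₊ ≤ FF G g A := by
    unfold FF
    exact Finset.le_sup (f := fun I => ‖nab A g I‖₊)
      (Finset.mem_filter.2 ⟨Finset.mem_univ _, h1, h2⟩)
  exact_mod_cast this

lemma FF_le {G : SimpleGraph V} {g : Finset V → ℂ} {A : Finset V} {c : ℝ} (hc : 0 ≤ c)
    (h : ∀ I, Disjoint I A → Indep G (I ∪ A) → ‖nab A g I‖ ≤ c) : (FF G g A : ℝ) ≤ c := by
  have : FF G g A ≤ ⟨c, hc⟩ := by
    unfold FF
    apply Finset.sup_le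
    intro I hI
    obtain ⟨_, h1, h2⟩ := Finset.mem_filter.1 hI
    exact h I h1 h2
  exact this

lemma Indep.mono {G : SimpleGraph V} {S T : Finset V} (h : Indep G T) (hST : S ⊆ T) : Indep G S :=
  fun x hx y hy => h x (hST hx) y (hST hy)

lemma Indep.insert' {G : SimpleGraph V} {S : Finset V} {x : V} (h : Indep G S)
    (hx : ∀ y ∈ S, ¬ G.Adj x y) : Indep G (insert x S) := by
  intro a ha b hb
  rcases mem_insert.1 ha with rfl | ha'
  · rcases mem_insert.1 hb with rfl | hb'
    · exact G.loopless.irrefl _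
    · exact hx b hb'
  · rcases mem_insert.1 hb with rfl | hb'
    · exact fun h' => hx a ha' h'.symm
    · exact h a ha' b hb'

lemma FF_upd_mem (G : SimpleGraph V) (p : ℂ) {x : V} {A : Finset V} (hx : x ∈ A)
    (g : Finset V → ℂ) : (FF G (upd G p x g) A : ℝ) = 0 := by
  apply le_antisymm _ (NNReal.coe_nonneg _)
  apply FF_le le_rfl
  intro I _ _
  rw [nab_upd_mem G p hx]; simp

lemma FF_upd_not_mem (G : SimpleGraph V) (p : ℂ) {x : V} {A : Finset V} (hx : x ∉ A)
    (g : Finset V → ℂ) {q δ : ℝ} (hq0 : 0 ≤ q) (hq1 : q ≤ 1) (hδ : ‖p - q‖ ≤ δ) :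
    (FF G (upd G p x g) A : ℝ) ≤ FF G g A +
      (if A ∩ Nb G x = ∅ then δ else ‖p‖) * FF G g (insert x (A \ Nb G x)) := by
  have hδ0 : 0 ≤ δ := le_trans (norm_nonneg _) hδ
  have hk : 0 ≤ (if A ∩ Nb G x = ∅ then δ else ‖p‖) := by
    split_ifs
    · exact hδ0
    · exact norm_nonneg _
  apply FF_le (by positivity)
  intro I hIA hI
  rw [nab_upd_not_mem G p hx]
  set I' := I.erase x with hI'
  have hsub : I' ⊆ I := Finset.erase_subset _ _
  have hd' : Disjoint I' A := Finset.disjoint_of_subset_left hsub hIA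
  have hi' : Indep G (I' ∪ A) := hI.mono (Finset.union_subset_union hsub (Finset.Subset.refl _))
  have b0 : ‖nab A g I'‖ ≤ FF G g A := le_FF hd' hi'
  by_cases hfree : ∀ y ∈ I, ¬ G.Adj x y
  · rw [if_pos hfree]
    have hxI' : x ∉ I' := Finset.notMem_erase _ _
    have hd2 : Disjoint I' (insert x (A \ Nb G x)) := by
      rw [Finset.disjoint_insert_right]
      exact ⟨hxI', Finset.disjoint_of_subset_right Finset.sdiff_subset hd'⟩
    have hi2 : Indep G (I' ∪ insert x (A \ Nb G x)) := by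
      have e : I' ∪ insert x (A \ Nb G x) = insert x (I' ∪ (A \ Nb G x)) := by
        ext y; simp only [mem_union, mem_insert]; tauto
      rw [e]
      apply Indep.insert'
      · exact hi'.mono (Finset.union_subset_union (Finset.Subset.refl _) Finset.sdiff_subset)
      · intro y hy
        rcases mem_union.1 hy with hy | hy
        · exact hfree y (hsub hy)
        · exact fun h => (mem_sdiff.1 hy).2 (mem_Nb.2 h)
    have b2 : ‖nab (insert x (A \ Nb G x)) g I'‖ ≤ FF G g (insert x (A \ Nb G x)) :=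
      le_FF hd2 hi2
    by_cases hAN : A ∩ Nb G x = ∅
    · rw [if_pos hAN]
      have hAs : A \ Nb G x = A := by
        rw [Finset.sdiff_eq_self_iff_disjoint, Finset.disjoint_iff_inter_eq_empty]; exact hAN
      rw [hAN, hAs]
      rw [hAs] at b2
      simp only [Finset.card_empty, pow_zero, one_mul]
      have hd3 : Disjoint (insert x I') A := by
        rw [Finset.disjoint_insert_left]; exact ⟨hx, hd'⟩
      have hi3 : Indep G (insert x I' ∪ A) := by
        have e : insert x I' ∪ A = insert x (I' ∪ A) := by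
          ext y; simp only [mem_union, mem_insert]; tauto
        rw [e]
        apply Indep.insert' hi'
        intro y hy
        rcases mem_union.1 hy with hy | hy
        · exact hfree y (hsub hy)
        · intro h
          have : y ∈ A ∩ Nb G x := mem_inter.2 ⟨hy, mem_Nb.2 h⟩
          rw [hAN] at this
          exact absurd this (Finset.notMem_empty _)
      have b3 : ‖nab A g (insert x I')‖ ≤ FF G g A := le_FF hd3 hi3
      have e : nab A g I' + p * nab (insert x A) g I' =
          ((1 - q : ℝ) : ℂ) * nab A g I' + ((q : ℝ) : ℂ) * nab A g (insert x I')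
            + (p - q) * nab (insert x A) g I' := by
        rw [nab_insert hx]; push_cast; ring
      rw [e]
      calc ‖((1 - q : ℝ) : ℂ) * nab A g I' + ((q : ℝ) : ℂ) * nab A g (insert x I')
            + (p - q) * nab (insert x A) g I'‖
          ≤ ‖((1 - q : ℝ) : ℂ) * nab A g I'‖ + ‖((q : ℝ) : ℂ) * nab A g (insert x I')‖
            + ‖(p - q) * nab (insert x A) g I'‖ := norm_add₃_le
        _ = (1 - q) * ‖nab A g I'‖ + q * ‖nab A g (insert x I')‖
            + ‖p - q‖ * ‖nab (insert x A) g I'‖ := by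
            rw [norm_mul, norm_mul, norm_mul, Complex.norm_real, Complex.norm_real,
              Real.norm_of_nonneg (by linarith), Real.norm_of_nonneg hq0]
        _ ≤ (1 - q) * FF G g A + q * FF G g A + δ * FF G g (insert x A) := by
            gcongr
        _ = _ := by ring
    · rw [if_neg hAN]
      calc ‖nab A g I' + p * ((-1 : ℂ) ^ (A ∩ Nb G x).card * nab (insert x (A \ Nb G x)) g I')‖
          ≤ ‖nab A g I'‖ + ‖p * ((-1 : ℂ) ^ (A ∩ Nb G x).card *
              nab (insert x (A \ Nb G x)) g I')‖ := norm_add_le _ _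
        _ = ‖nab A g I'‖ + ‖p‖ * ‖nab (insert x (A \ Nb G x)) g I'‖ := by
            rw [norm_mul, norm_mul, norm_pow]; simp
        _ ≤ _ := by gcongr
  · rw [if_neg hfree, add_zero]
    have : 0 ≤ (if A ∩ Nb G x = ∅ then δ else ‖p‖) * (FF G g (insert x (A \ Nb G x)) : ℝ) := by
      positivity
    linarith

/-! ### The combinatorial summation -/

/-- nonempty independent sets -/
def NI (G : SimpleGraph V) : Finset (Finset V) := univ.filter (fun A => A.Nonempty ∧ Indep G A)

lemma mem_NI {G : SimpleGraph V} {A : Finset V} : A ∈ NI G ↔ A.Nonempty ∧ Indep G A := by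
  simp [NI]

lemma sum_fix (G : SimpleGraph V) (x : V) (θ δ π : ℝ) (hθ : 0 < θ) (hδ : 0 ≤ δ) (hπ : 0 ≤ π)
    (Φ : Finset V → ℝ) (hΦ : ∀ A, 0 ≤ Φ A) :
    ∑ A ∈ (NI G).filter (fun A => x ∉ A),
        θ ^ A.card * ((if A ∩ Nb G x = ∅ then δ else π) * Φ (insert x (A \ Nb G x))) ≤
      ∑ A ∈ (NI G).filter (fun A => x ∈ A),
        θ ^ (A.card - 1) * (δ + π * ((1 + θ) ^ (Nb G x).card - 1)) * Φ A := by
  rw [← Finset.sum_fiberwise_of_maps_to
    (s := (NI G).filter (fun A => x ∉ A)) (t := (NI G).filter (fun A => x ∈ A))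
    (g := fun A => insert x (A \ Nb G x))]
  · apply Finset.sum_le_sum
    intro A' hA'
    obtain ⟨hA'1, hxA'⟩ := Finset.mem_filter.1 hA'
    have hstep : ∑ A ∈ ((NI G).filter (fun A => x ∉ A)).filter
          (fun A => insert x (A \ Nb G x) = A'),
        θ ^ A.card * ((if A ∩ Nb G x = ∅ then δ else π) * Φ (insert x (A \ Nb G x))) =
        ∑ A ∈ ((NI G).filter (fun A => x ∉ A)).filter
          (fun A => insert x (A \ Nb G x) = A'),
        (fun B : Finset V => θ ^ (A'.card - 1) * (θ ^ B.card * (if B = ∅ then δ else π)) * Φ A')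
          (A ∩ Nb G x) := by
      apply Finset.sum_congr rfl
      intro A hA
      obtain ⟨hA1, hA2⟩ := Finset.mem_filter.1 hA
      have hxA : x ∉ A := (Finset.mem_filter.1 hA1).2
      have hcard : A.card = (A'.card - 1) + (A ∩ Nb G x).card := by
        have h1 : (A \ Nb G x).card = A'.card - 1 := by
          rw [← hA2, Finset.card_insert_of_notMem (by simp [hxA])]
          simp
        have h2 := Finset.card_sdiff_add_card_inter A (Nb G x)
        omega
      simp only
      rw [hA2, hcard, pow_add]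
      ring
    rw [hstep, ← Finset.sum_image (f := fun B : Finset V =>
      θ ^ (A'.card - 1) * (θ ^ B.card * (if B = ∅ then δ else π)) * Φ A')
      (g := fun A : Finset V => A ∩ Nb G x)]
    · have hsubset : (((NI G).filter (fun A => x ∉ A)).filter
          (fun A => insert x (A \ Nb G x) = A')).image (fun A : Finset V => A ∩ Nb G x) ⊆
          (Nb G x).powerset := by
        intro B hB
        obtain ⟨A, _, rfl⟩ := Finset.mem_image.1 hB
        exact Finset.mem_powerset.2 Finset.inter_subset_right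
      refine le_trans (Finset.sum_le_sum_of_subset_of_nonneg hsubset ?_) ?_
      · intro B _ _
        have : 0 ≤ (if B = ∅ then δ else π) := by split_ifs <;> assumption
        have := hΦ A'
        positivity
      · rw [← Finset.sum_mul, ← Finset.mul_sum]
        apply le_of_eq
        congr 2
        have h0 : (∅ : Finset V) ∈ (Nb G x).powerset := Finset.empty_mem_powerset _
        have e1 : ∀ B : Finset V, θ ^ B.card * (if B = ∅ then δ else π) =
            π * (θ ^ B.card * 1 ^ ((Nb G x).card - B.card)) + (if B = ∅ then δ - π else 0) := by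
          intro B
          by_cases hB : B = ∅
          · subst hB; simp
          · simp [hB]; ring
        rw [Finset.sum_congr rfl (fun B _ => e1 B), Finset.sum_add_distrib, ← Finset.mul_sum,
          Finset.sum_pow_mul_eq_add_pow, Finset.sum_ite_eq' (Nb G x).powerset ∅ (fun _ => δ - π),
          if_pos h0]
        ring
    · intro A hA B hB hAB
      have hA := Finset.mem_coe.1 hA
      have hB := Finset.mem_coe.1 hB
      obtain ⟨hA1, hA2⟩ := Finset.mem_filter.1 hA
      obtain ⟨hB1, hB2⟩ := Finset.mem_filter.1 hB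
      have hxA : x ∉ A := (Finset.mem_filter.1 hA1).2
      have hxB : x ∉ B := (Finset.mem_filter.1 hB1).2
      have hs : A \ Nb G x = B \ Nb G x := by
        have h1 : (insert x (A \ Nb G x)).erase x = A \ Nb G x :=
          Finset.erase_insert (by simp [hxA])
        have h2 : (insert x (B \ Nb G x)).erase x = B \ Nb G x :=
          Finset.erase_insert (by simp [hxB])
        rw [← h1, ← h2, hA2, hB2]
      calc A = (A \ Nb G x) ∪ (A ∩ Nb G x) := (Finset.sdiff_union_inter A (Nb G x)).symm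
        _ = (B \ Nb G x) ∪ (B ∩ Nb G x) := by rw [hs]; exact congrArg _ hAB
        _ = B := Finset.sdiff_union_inter B (Nb G x)
  · intro A hA
    obtain ⟨hA1, hxA⟩ := Finset.mem_filter.1 hA
    obtain ⟨_, hAi⟩ := mem_NI.1 hA1
    refine Finset.mem_filter.2 ⟨mem_NI.2 ⟨Finset.insert_nonempty _ _, ?_⟩, Finset.mem_insert_self _ _⟩
    apply Indep.insert' (hAi.mono Finset.sdiff_subset)
    intro y hy h
    exact (mem_sdiff.1 hy).2 (mem_Nb.2 h)

/-! ### The contraction estimate -/

/-- the weighted `ℓ¹`-sum of the sup norms of the mixed differences -/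
def NN (G : SimpleGraph V) (θ : ℝ) (g : Finset V → ℂ) : ℝ :=
  ∑ A ∈ NI G, θ ^ A.card * (FF G g A : ℝ)

/-- the averaged update -/
def avg (G : SimpleGraph V) (p : V → ℂ) (g : Finset V → ℂ) (I : Finset V) : ℂ :=
  (1 / (Fintype.card V : ℂ)) * ∑ x : V, upd G (p x) x g I

lemma nab_avg (G : SimpleGraph V) (p : V → ℂ) (g : Finset V → ℂ) (A I : Finset V) :
    nab A (avg G p g) I = (1 / (Fintype.card V : ℂ)) * ∑ x : V, nab A (upd G (p x) x g) I := by
  unfold nab avg
  rw [Finset.sum_comm, Finset.mul_sum]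
  apply Finset.sum_congr rfl
  intro C _
  rw [← Finset.mul_sum]
  ring

lemma FF_avg (G : SimpleGraph V) (p : V → ℂ) (g : Finset V → ℂ) (A : Finset V) :
    (FF G (avg G p g) A : ℝ) ≤ (1 / (Fintype.card V : ℝ)) * ∑ x : V, (FF G (upd G (p x) x g) A : ℝ) := by
  apply FF_le (by positivity)
  intro I h1 h2
  rw [nab_avg, norm_mul]
  have e : ‖(1 / (Fintype.card V : ℂ))‖ = 1 / (Fintype.card V : ℝ) := by
    rw [norm_div, norm_one, Complex.norm_natCast]
  rw [e]
  apply mul_le_mul_of_nonneg_left _ (by positivity)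
  refine le_trans (norm_sum_le _ _) (Finset.sum_le_sum ?_)
  intro x _
  exact le_FF h1 h2

lemma contraction (G : SimpleGraph V) (p : V → ℂ) (q δ : V → ℝ) (θ K : ℝ)
    (hq0 : ∀ x, 0 ≤ q x) (hq1 : ∀ x, q x ≤ 1) (hδ : ∀ x, ‖p x - q x‖ ≤ δ x)
    (hθ : 0 < θ) (hKθ : K ≤ θ)
    (hK : ∀ x, δ x + ‖p x‖ * ((1 + θ) ^ (Nb G x).card - 1) ≤ K)
    (hV : 0 < Fintype.card V) (g : Finset V → ℂ) :
    NN G θ (avg G p g) ≤ (1 - (1 - K / θ) / Fintype.card V) * NN G θ g := by
  have hn : (0 : ℝ) < Fintype.card V := by exact_mod_cast hV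
  have hδ0 : ∀ x, 0 ≤ δ x := fun x => le_trans (norm_nonneg _) (hδ x)
  -- step 1
  have s1 : (Fintype.card V : ℝ) * NN G θ (avg G p g) ≤
      ∑ A ∈ NI G, ∑ x : V, θ ^ A.card * (FF G (upd G (p x) x g) A : ℝ) := by
    unfold NN
    rw [Finset.mul_sum]
    apply Finset.sum_le_sum
    intro A _
    have := FF_avg G p g A
    rw [← Finset.mul_sum]
    calc (Fintype.card V : ℝ) * (θ ^ A.card * (FF G (avg G p g) A : ℝ))
        ≤ (Fintype.card V : ℝ) * (θ ^ A.card * ((1 / (Fintype.card V : ℝ)) *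
            ∑ x : V, (FF G (upd G (p x) x g) A : ℝ))) := by gcongr
      _ = _ := by field_simp
  -- step 2
  have s2 : ∑ A ∈ NI G, ∑ x : V, θ ^ A.card * (FF G (upd G (p x) x g) A : ℝ) ≤
      ∑ A ∈ NI G, ∑ x : V, ((if x ∉ A then θ ^ A.card * (FF G g A : ℝ) else 0) +
        (if x ∉ A then θ ^ A.card * ((if A ∩ Nb G x = ∅ then δ x else ‖p x‖) *
          (FF G g (insert x (A \ Nb G x)) : ℝ)) else 0)) := by
    apply Finset.sum_le_sum
    intro A _
    apply Finset.sum_le_sum
    intro x _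
    by_cases hx : x ∈ A
    · rw [FF_upd_mem G (p x) hx]; simp [hx]
    · rw [if_pos hx, if_pos hx, ← mul_add]
      apply mul_le_mul_of_nonneg_left _ (by positivity)
      exact FF_upd_not_mem G (p x) hx g (hq0 x) (hq1 x) (hδ x)
  -- step 3
  have s3 : ∑ A ∈ NI G, ∑ x : V, (if x ∉ A then θ ^ A.card * (FF G g A : ℝ) else 0) =
      ∑ A ∈ NI G, ((Fintype.card V : ℝ) - A.card) * (θ ^ A.card * (FF G g A : ℝ)) := by
    apply Finset.sum_congr rfl
    intro A _
    rw [← Finset.sum_filter, Finset.sum_const, nsmul_eq_mul]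
    congr 1
    have h1 : (univ.filter (fun x => x ∉ A)) = Aᶜ := by ext y; simp
    rw [h1, Finset.card_compl, Nat.cast_sub (Finset.card_le_univ A)]
  have s4 : ∑ A ∈ NI G, ∑ x : V, (if x ∉ A then θ ^ A.card *
        ((if A ∩ Nb G x = ∅ then δ x else ‖p x‖) *
          (FF G g (insert x (A \ Nb G x)) : ℝ)) else 0) ≤
      ∑ A ∈ NI G, (A.card : ℝ) * ((K / θ) * (θ ^ A.card * (FF G g A : ℝ))) := by
    rw [Finset.sum_comm]
    have h1 : ∀ x ∈ (univ : Finset V), ∑ A ∈ NI G, (if x ∉ A then θ ^ A.card *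
        ((if A ∩ Nb G x = ∅ then δ x else ‖p x‖) *
          (FF G g (insert x (A \ Nb G x)) : ℝ)) else 0) ≤
        ∑ A ∈ NI G, (if x ∈ A then ((K / θ) * (θ ^ A.card * (FF G g A : ℝ))) else 0) := by
      intro x _
      rw [← Finset.sum_filter, ← Finset.sum_filter]
      refine le_trans (sum_fix G x θ (δ x) ‖p x‖ hθ (hδ0 x) (norm_nonneg _)
        (fun A => (FF G g A : ℝ)) (fun A => NNReal.coe_nonneg _)) ?_
      apply Finset.sum_le_sum
      intro A hA
      have hxA := (Finset.mem_filter.1 hA).2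
      have hcard : 1 ≤ A.card := Finset.card_pos.2 ⟨x, hxA⟩
      have e : θ ^ A.card = θ ^ (A.card - 1) * θ := by
        rw [← pow_succ, Nat.sub_add_cancel hcard]
      rw [e]
      have : K / θ * (θ ^ (A.card - 1) * θ * (FF G g A : ℝ)) = θ ^ (A.card - 1) * K * (FF G g A : ℝ) := by
        field_simp
      rw [this]
      have := hK x
      gcongr
    refine le_trans (Finset.sum_le_sum h1) ?_
    rw [Finset.sum_comm]
    apply le_of_eq
    apply Finset.sum_congr rfl
    intro A _
    rw [← Finset.sum_filter, Finset.sum_const, nsmul_eq_mul]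
    congr 2
    congr 1
    ext y; simp
  have s5 : (Fintype.card V : ℝ) * NN G θ (avg G p g) ≤
      ∑ A ∈ NI G, ((Fintype.card V : ℝ) - A.card * (1 - K / θ)) * (θ ^ A.card * (FF G g A : ℝ)) := by
    refine le_trans (le_trans s1 s2) ?_
    simp only [Finset.sum_add_distrib]
    rw [s3]
    refine le_trans (add_le_add (le_refl _) s4) ?_
    rw [← Finset.sum_add_distrib]
    apply le_of_eq
    apply Finset.sum_congr rfl
    intro A _
    ring
  have s6 : ∑ A ∈ NI G, ((Fintype.card V : ℝ) - A.card * (1 - K / θ)) *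
      (θ ^ A.card * (FF G g A : ℝ)) ≤ ((Fintype.card V : ℝ) - (1 - K / θ)) * NN G θ g := by
    unfold NN
    rw [Finset.mul_sum]
    apply Finset.sum_le_sum
    intro A hA
    have hcard : (1 : ℝ) ≤ A.card := by
      exact_mod_cast Finset.card_pos.2 (mem_NI.1 hA).1
    have hc : 0 ≤ 1 - K / θ := by
      rw [sub_nonneg, div_le_one hθ]; exact hKθ
    apply mul_le_mul_of_nonneg_right _ (by positivity)
    nlinarith
  have s7 := le_trans s5 s6
  have : NN G θ (avg G p g) ≤ (((Fintype.card V : ℝ) - (1 - K / θ)) * NN G θ g) / Fintype.card V := by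
    rw [le_div_iff₀ hn]; linarith
  refine le_trans this (le_of_eq ?_)
  field_simp

/-! ### Eigenvalues of the induced map -/

lemma ext_of {G : SimpleGraph V} (f : Om G → ℂ) {S : Finset V} (h : Indep G S) :
    ext G f S = f ⟨S, h⟩ := by
  unfold ext; rw [dif_pos h]

lemma NN_pos (G : SimpleGraph V) {θ : ℝ} (hθ : 0 < θ) (f : Om G → ℂ)
    (hf : ¬ ∃ c, f = fun _ => c) : 0 < NN G θ (ext G f) := by
  by_contra hneg
  apply hf
  have hnn : ∀ A ∈ NI G, 0 ≤ θ ^ A.card * (FF G (ext G f) A : ℝ) := fun A _ => by positivity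
  have h0 : NN G θ (ext G f) = 0 := le_antisymm (not_lt.1 hneg) (Finset.sum_nonneg hnn)
  have h1 := (Finset.sum_eq_zero_iff_of_nonneg hnn).1 h0
  have hempty : Indep G ∅ := fun x hx => absurd hx (Finset.notMem_empty _)
  have key : ∀ S : Finset V, Indep G S → ext G f S = ext G f ∅ := by
    intro S
    induction S using Finset.induction_on with
    | empty => intro _; rfl
    | insert x S hx ih =>
      intro hS
      have hS' : Indep G S := hS.mono (Finset.subset_insert _ _)
      have hx1 : Indep G {x} := hS.mono (by simp)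
      have h2 := h1 {x} (mem_NI.2 ⟨Finset.singleton_nonempty _, hx1⟩)
      have h3 : (FF G (ext G f) {x} : ℝ) = 0 := by
        rcases mul_eq_zero.1 h2 with h | h
        · exact absurd h (by positivity)
        · exact h
      have h4 : ‖nab {x} (ext G f) S‖ ≤ (FF G (ext G f) {x} : ℝ) := by
        apply le_FF
        · simpa using hx
        · have : S ∪ {x} = insert x S := by ext y; simp
          rw [this]; exact hS
      rw [h3] at h4
      have h5 : nab {x} (ext G f) S = 0 := norm_le_zero_iff.1 h4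
      have h6 : nab {x} (ext G f) S = ext G f (insert x S) - ext G f S := by
        have : ({x} : Finset V) = insert x ∅ := by simp
        rw [this, nab_insert (Finset.notMem_empty x)]
        simp [nab]
      rw [h6, sub_eq_zero] at h5
      rw [h5, ih hS']
  refine ⟨ext G f ∅, ?_⟩
  funext I
  rw [← key I.1 I.2, ext_of f I.2]

/-- Eigenvalue bound for the induced map. -/
lemma eig_bound (G : SimpleGraph V) (w : V → ℂ) (hw : ∀ x, w x ≠ -1) (q : V → ℝ) (θ K : ℝ)
    (hq0 : ∀ x, 0 ≤ q x) (hq1 : ∀ x, q x ≤ 1)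
    (hθ : 0 < θ) (hKθ : K ≤ θ)
    (hK : ∀ x, ‖w x / (1 + w x) - q x‖ + ‖w x / (1 + w x)‖ * ((1 + θ) ^ (Nb G x).card - 1) ≤ K)
    (f : Om G → ℂ) (hf : ¬ ∃ c, f = fun _ => c) (μ c : ℂ)
    (he : (transition G w).mulVec f = μ • f + fun _ => c) :
    ‖μ‖ ≤ 1 - (1 - K / θ) / Fintype.card V := by
  have hV : 0 < Fintype.card V := by
    rw [Fintype.card_pos_iff]
    by_contra hne
    rw [not_nonempty_iff] at hne
    apply hf
    refine ⟨f ⟨∅, fun x hx => absurd hx (Finset.notMem_empty _)⟩, ?_⟩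
    funext I
    congr 1
    apply Subtype.ext
    ext x
    exact hne.elim x
  have hcon := contraction G (fun x => w x / (1 + w x)) q
    (fun x => ‖w x / (1 + w x) - q x‖) θ K hq0 hq1 (fun x => le_rfl) hθ hKθ hK hV (ext G f)
  have hpos := NN_pos G hθ f hf
  have hle : ‖μ‖ * NN G θ (ext G f) ≤ NN G θ (avg G (fun x => w x / (1 + w x)) (ext G f)) := by
    unfold NN
    rw [Finset.mul_sum]
    apply Finset.sum_le_sum
    intro A hA
    obtain ⟨hAne, _⟩ := mem_NI.1 hA
    have h1 : ‖μ‖ * (FF G (ext G f) A : ℝ) ≤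
        (FF G (avg G (fun x => w x / (1 + w x)) (ext G f)) A : ℝ) := by
      rcases eq_or_lt_of_le (norm_nonneg μ) with h0 | h0
      · rw [← h0, zero_mul]; exact NNReal.coe_nonneg _
      · rw [mul_comm, ← le_div_iff₀ h0]
        apply FF_le (by positivity)
        intro I hI1 hI2
        rw [le_div_iff₀ h0, mul_comm, ← norm_mul]
        have e : nab A (avg G (fun x => w x / (1 + w x)) (ext G f)) I = μ * nab A (ext G f) I := by
          have e1 : nab A (avg G (fun x => w x / (1 + w x)) (ext G f)) I =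
              μ * nab A (ext G f) I + nab A (fun _ => c) I := by
            unfold nab
            rw [Finset.mul_sum, ← Finset.sum_add_distrib]
            apply Finset.sum_congr rfl
            intro C hC
            have hCA := Finset.mem_powerset.1 hC
            have hi : Indep G (I ∪ C) :=
              hI2.mono (Finset.union_subset_union (Finset.Subset.refl _) hCA)
            have e2 := mulVec_eq G w hw f ⟨I ∪ C, hi⟩
            rw [he] at e2
            have e3 : avg G (fun x => w x / (1 + w x)) (ext G f) (I ∪ C) = μ * f ⟨I ∪ C, hi⟩ + c := by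
              unfold avg
              rw [← e2]
              simp
            rw [e3, ext_of f hi]
            ring
          rw [e1, nab_const hAne, add_zero]
        rw [← e]
        exact le_FF hI1 hI2
    calc ‖μ‖ * (θ ^ A.card * (FF G (ext G f) A : ℝ))
        = θ ^ A.card * (‖μ‖ * (FF G (ext G f) A : ℝ)) := by ring
      _ ≤ _ := by gcongr
  have := le_trans hle hcon
  exact le_of_mul_le_mul_right this hpos

lemma mem_constants {G : SimpleGraph V} {f : Om G → ℂ} :
    f ∈ constants G ↔ ∃ c : ℂ, f = fun _ => c := by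
  unfold constants
  rw [Submodule.mem_span_singleton]
  constructor
  · rintro ⟨a, rfl⟩
    exact ⟨a, by funext I; simp⟩
  · rintro ⟨c, rfl⟩
    exact ⟨c, by funext I; simp⟩

lemma invariant (G : SimpleGraph V) (w : V → ℂ) (hw : ∀ x, w x ≠ -1) :
    constants G ≤ (constants G).comap (transition G w).mulVecLin := by
  intro f hf
  obtain ⟨c, rfl⟩ := mem_constants.1 hf
  rw [Submodule.mem_comap, mem_constants]
  refine ⟨(1 / (Fintype.card V : ℂ)) * ∑ _x : V, c, ?_⟩
  funext I
  rw [Matrix.mulVecLin_apply, mulVec_eq G w hw]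
  congr 1
  apply Finset.sum_congr rfl
  intro x _
  have h1 : Indep G (I.1.erase x) := I.2.mono (Finset.erase_subset _ _)
  unfold upd
  rw [ext_of _ h1]
  split_ifs with h2
  · have h3 : Indep G (insert x I.1) := Indep.insert' I.2 h2
    rw [ext_of _ h3]; simp
  · simp

lemma spr_lt (G : SimpleGraph V) (w : V → ℂ) (hw : ∀ x, w x ≠ -1) (q : V → ℝ) (θ : ℝ)
    (hq0 : ∀ x, 0 ≤ q x) (hq1 : ∀ x, q x ≤ 1) (hθ : 0 < θ)
    (hK : ∀ x, ‖w x / (1 + w x) - q x‖ + ‖w x / (1 + w x)‖ * ((1 + θ) ^ (Nb G x).card - 1) < θ) :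
    SprLtOne G w := by
  refine ⟨invariant G w hw, ?_⟩
  -- a uniform bound on the eigenvalues
  have hr : ∃ r : ℝ, 0 ≤ r ∧ r < 1 ∧ ∀ (f : Om G → ℂ) (_ : ¬ ∃ c, f = fun _ => c) (μ c : ℂ)
      (_ : (transition G w).mulVec f = μ • f + fun _ => c), ‖μ‖ ≤ r := by
    rcases isEmpty_or_nonempty V with hE | hN
    · refine ⟨0, le_rfl, by norm_num, ?_⟩
      intro f hf
      exfalso
      apply hf
      refine ⟨f ⟨∅, fun x hx => absurd hx (Finset.notMem_empty _)⟩, ?_⟩
      funext I
      congr 1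
      apply Subtype.ext
      ext x
      exact hE.elim x
    · obtain ⟨x0, _, hx0⟩ := Finset.exists_max_image (univ : Finset V)
        (fun x => ‖w x / (1 + w x) - q x‖ +
          ‖w x / (1 + w x)‖ * ((1 + θ) ^ (Nb G x).card - 1)) Finset.univ_nonempty
      set K := ‖w x0 / (1 + w x0) - q x0‖ +
          ‖w x0 / (1 + w x0)‖ * ((1 + θ) ^ (Nb G x0).card - 1) with hKdef
      have hKlt : K < θ := hK x0
      have hn : (0 : ℝ) < Fintype.card V := by exact_mod_cast Fintype.card_pos
      have hc : 0 < 1 - K / θ := by rw [sub_pos, div_lt_one hθ]; exact hKlt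
      have hlt : 1 - (1 - K / θ) / Fintype.card V < 1 := by
        have := div_pos hc hn
        linarith
      refine ⟨max 0 (1 - (1 - K / θ) / Fintype.card V), le_max_left _ _,
        max_lt (by norm_num) hlt, ?_⟩
      intro f hf μ c he
      exact le_trans (eig_bound G w hw q θ K hq0 hq1 hθ hKlt.le
        (fun x => hx0 x (Finset.mem_univ _)) f hf μ c he) (le_max_right _ _)
  obtain ⟨r, hr0, hr1, hr⟩ := hr
  have hle : spectralRadius ℂ
      ((constants G).mapQ (constants G) (transition G w).mulVecLin (invariant G w hw) :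
        Module.End ℂ ((Om G → ℂ) ⧸ constants G)) ≤ ENNReal.ofReal r := by
    unfold spectralRadius
    refine iSup₂_le ?_
    intro μ hμ
    rw [← Module.End.hasEigenvalue_iff_mem_spectrum] at hμ
    obtain ⟨v, hv⟩ := hμ.exists_hasEigenvector
    obtain ⟨hv1, hv0⟩ := Module.End.hasEigenvector_iff.1 hv
    rw [Module.End.mem_eigenspace_iff] at hv1
    obtain ⟨f, rfl⟩ := Submodule.mkQ_surjective (constants G) v
    have hf : ¬ ∃ c, f = fun _ => c := by
      intro h
      apply hv0
      rw [Submodule.mkQ_apply, Submodule.Quotient.mk_eq_zero]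
      exact mem_constants.2 h
    rw [Submodule.mkQ_apply, Submodule.mapQ_apply, ← Submodule.Quotient.mk_smul,
      Submodule.Quotient.eq] at hv1
    obtain ⟨c, hc⟩ := mem_constants.1 hv1
    have he : (transition G w).mulVec f = μ • f + fun _ => c := by
      rw [← hc, Matrix.mulVecLin_apply]
      abel
    have := hr f hf μ c he
    rw [← enorm_eq_nnnorm, ← ofReal_norm]
    exact ENNReal.ofReal_le_ofReal this
  refine lt_of_le_of_lt hle ?_
  rw [← ENNReal.ofReal_one]
  exact (ENNReal.ofReal_lt_ofReal_iff (by norm_num)).2 hr1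

/-! ### The domains -/

/-- region in the variable `p = w/(1+w)` -/
def DD (Δ : ℕ) (θ : ℝ) : Set ℂ :=
  {p | ∃ q : ℝ, 0 ≤ q ∧ q ≤ 1 ∧ ‖p - q‖ + ‖p‖ * ((1 + θ) ^ Δ - 1) < θ}

lemma DD_open (Δ : ℕ) (θ : ℝ) : IsOpen (DD Δ θ) := by
  have : DD Δ θ = ⋃ q : ℝ, ⋃ _ : 0 ≤ q ∧ q ≤ 1, {p : ℂ | ‖p - q‖ + ‖p‖ * ((1 + θ) ^ Δ - 1) < θ} := by
    ext p
    simp only [DD, Set.mem_ofPred_eq, Set.mem_iUnion, exists_prop, and_assoc]
  rw [this]
  refine isOpen_iUnion fun q => isOpen_iUnion fun _ => ?_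
  exact isOpen_lt (by fun_prop) continuous_const

lemma DD_convex (Δ : ℕ) {θ : ℝ} (hθ : 0 < θ) : Convex ℝ (DD Δ θ) := by
  rintro p1 ⟨q1, h10, h11, h1⟩ p2 ⟨q2, h20, h21, h2⟩ a b ha hb hab
  have hc : 0 ≤ (1 + θ) ^ Δ - 1 := by
    have : (1 : ℝ) ≤ (1 + θ) ^ Δ := one_le_pow₀ (by linarith)
    linarith
  refine ⟨a * q1 + b * q2, by positivity, ?_, ?_⟩
  · calc a * q1 + b * q2 ≤ a * 1 + b * 1 := by gcongr
      _ = 1 := by linarith
  · have e1 : ‖a • p1 + b • p2 - ((a * q1 + b * q2 : ℝ) : ℂ)‖ ≤ a * ‖p1 - q1‖ + b * ‖p2 - q2‖ := by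
      have : a • p1 + b • p2 - ((a * q1 + b * q2 : ℝ) : ℂ) =
          (a : ℂ) * (p1 - q1) + (b : ℂ) * (p2 - q2) := by
        rw [Complex.real_smul, Complex.real_smul]; push_cast; ring
      rw [this]
      refine le_trans (norm_add_le _ _) ?_
      rw [norm_mul, norm_mul, Complex.norm_real, Complex.norm_real, Real.norm_of_nonneg ha,
        Real.norm_of_nonneg hb]
    have e2 : ‖a • p1 + b • p2‖ ≤ a * ‖p1‖ + b * ‖p2‖ := by
      refine le_trans (norm_add_le _ _) ?_
      rw [norm_smul, norm_smul, Real.norm_of_nonneg ha, Real.norm_of_nonneg hb]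
    have e3 := mul_le_mul_of_nonneg_right e2 hc
    have e4 : a * (‖p1 - q1‖ + ‖p1‖ * ((1 + θ) ^ Δ - 1)) +
        b * (‖p2 - q2‖ + ‖p2‖ * ((1 + θ) ^ Δ - 1)) < θ := by
      rcases eq_or_lt_of_le ha with h | h
      · rw [← h, zero_add] at hab
        rw [← h, hab]; linarith
      · have h3 := mul_lt_mul_of_pos_left h1 h
        have h4 := mul_le_mul_of_nonneg_left h2.le hb
        calc _ < a * θ + b * θ := by linarith
          _ = θ := by rw [← add_mul, hab, one_mul]
    calc _ ≤ (a * ‖p1 - q1‖ + b * ‖p2 - q2‖) + (a * ‖p1‖ + b * ‖p2‖) * ((1 + θ) ^ Δ - 1) :=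
          add_le_add e1 e3
      _ = a * (‖p1 - q1‖ + ‖p1‖ * ((1 + θ) ^ Δ - 1)) +
        b * (‖p2 - q2‖ + ‖p2‖ * ((1 + θ) ^ Δ - 1)) := by ring
      _ < θ := e4

lemma zero_mem_DD (Δ : ℕ) {θ : ℝ} (hθ : 0 < θ) : (0 : ℂ) ∈ DD Δ θ :=
  ⟨0, le_rfl, by norm_num, by simpa using hθ⟩

lemma DD_ne_one {Δ : ℕ} (hΔ : 2 ≤ Δ) {θ : ℝ} (hθ : 0 < θ) {p : ℂ} (hp : p ∈ DD Δ θ) : p ≠ 1 := by
  rintro rfl
  obtain ⟨q, _, _, h⟩ := hp
  have h1 : 1 + (Δ : ℝ) * θ ≤ (1 + θ) ^ Δ := one_add_mul_le_pow (by linarith) Δ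
  have h2 : (2 : ℝ) ≤ Δ := by exact_mod_cast hΔ
  have h3 := norm_nonneg ((1 : ℂ) - q)
  rw [norm_one] at h
  nlinarith

/-- If `p` is real with `0 ≤ p`, `p Δ < 1`, then `p` lies in some region `DD Δ θ`; one `θ` serves
all `p ≤ p₀`. -/
lemma exists_theta {Δ : ℕ} (hΔ : 2 ≤ Δ) {p₀ : ℝ} (h0 : 0 ≤ p₀) (h1 : p₀ * Δ < 1) :
    ∃ θ : ℝ, 0 < θ ∧ ∀ p : ℝ, 0 ≤ p → p ≤ p₀ → (p : ℂ) ∈ DD Δ θ := by
  have h2 : (2 : ℝ) ≤ Δ := by exact_mod_cast hΔ
  have hΔ0 : (0 : ℝ) < Δ := by linarith
  refine ⟨(1 - p₀ * Δ) / (2 * Δ), by apply div_pos <;> linarith, ?_⟩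
  intro p hp0 hp
  set θ := (1 - p₀ * Δ) / (2 * Δ) with hθdef
  have hθ : 0 < θ := by apply div_pos <;> linarith
  have hΔθ : Δ * θ = (1 - p₀ * Δ) / 2 := by rw [hθdef]; field_simp
  have hp₀Δ : 0 ≤ p₀ * Δ := by positivity
  have hΔθ1 : Δ * θ ≤ 1 / 2 := by rw [hΔθ]; linarith
  have hθ1 : θ ≤ 1 := by nlinarith
  refine ⟨p, hp0, ?_, ?_⟩
  · nlinarith
  · rw [sub_self, norm_zero, zero_add, Complex.norm_real, Real.norm_of_nonneg hp0]
    have b1 : 1 - (Δ : ℝ) * θ ≤ (1 - θ) ^ Δ := by
      have := one_add_mul_le_pow (a := -θ) (by linarith) Δ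
      have e : 1 + (Δ : ℝ) * -θ = 1 - Δ * θ := by ring
      have e2 : 1 + -θ = 1 - θ := by ring
      rw [e, e2] at this
      exact this
    have b2 : (1 + θ) ^ Δ * (1 - θ) ^ Δ ≤ 1 := by
      rw [← mul_pow]
      apply pow_le_one₀
      · nlinarith
      · nlinarith
    have b3 : (1 + θ) ^ Δ * (1 - Δ * θ) ≤ 1 := by
      refine le_trans (mul_le_mul_of_nonneg_left b1 (by positivity)) b2
    have b4 : 0 < 1 - Δ * θ := by linarith
    have b5 : (1 + θ) ^ Δ ≤ 1 / (1 - Δ * θ) := by rw [le_div_iff₀ b4]; exact b3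
    have b6 : (1 + θ) ^ Δ - 1 ≤ Δ * θ / (1 - Δ * θ) := by
      have : 1 / (1 - Δ * θ) - 1 = Δ * θ / (1 - Δ * θ) := by field_simp; ring
      linarith
    calc p * ((1 + θ) ^ Δ - 1) ≤ p₀ * ((1 + θ) ^ Δ - 1) := by
          apply mul_le_mul_of_nonneg_right hp
          have : (1 : ℝ) ≤ (1 + θ) ^ Δ := one_le_pow₀ (by linarith)
          linarith
      _ ≤ p₀ * (Δ * θ / (1 - Δ * θ)) := by gcongr
      _ = (p₀ * Δ) * θ / (1 - Δ * θ) := by ring
      _ < θ := by
          rw [div_lt_iff₀ b4, hΔθ]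
          nlinarith

/-- the region in the variable `w` attached to a region `U` in the variable `p = w/(1+w)` -/
def WW (U : Set ℂ) : Set ℂ := {w | w ≠ -1 ∧ w / (1 + w) ∈ U}

lemma WW_open {U : Set ℂ} (hU : IsOpen U) : IsOpen (WW U) := by
  have h1 : IsOpen {w : ℂ | w ≠ -1} := isOpen_ne
  have h2 : ContinuousOn (fun w : ℂ => w / (1 + w)) {w : ℂ | w ≠ -1} := by
    apply ContinuousOn.div (by fun_prop) (by fun_prop)
    intro w hw h
    apply hw
    linear_combination h
  exact h2.isOpen_inter_preimage h1 hU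

lemma WW_connected {U : Set ℂ} (hU : IsConnected U) (h1 : ∀ p ∈ U, p ≠ 1) : IsConnected (WW U) := by
  have e : WW U = (fun p : ℂ => p / (1 - p)) '' U := by
    ext w
    constructor
    · rintro ⟨hw, hU'⟩
      refine ⟨_, hU', ?_⟩
      have : 1 + w ≠ 0 := fun h => hw (by linear_combination h)
      have h2 : 1 - w / (1 + w) = 1 / (1 + w) := by field_simp; ring
      simp only
      rw [h2]
      field_simp
    · rintro ⟨p, hp, rfl⟩
      have h2 : 1 - p ≠ 0 := sub_ne_zero.2 (h1 p hp).symm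
      have h3 : 1 + p / (1 - p) = 1 / (1 - p) := by field_simp; ring
      refine ⟨?_, ?_⟩
      · intro h
        have h4 : 1 + p / (1 - p) = 0 := by simp only at h; rw [h]; ring
        rw [h3] at h4
        exact one_div_ne_zero h2 h4
      · simp only
        rw [h3]
        have : p / (1 - p) / (1 / (1 - p)) = p := by field_simp
        rw [this]; exact hp
  rw [e]
  apply hU.image
  apply ContinuousOn.div (by fun_prop) (by fun_prop)
  intro p hp
  exact sub_ne_zero.2 (h1 p hp).symm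

lemma real_p {Δ : ℕ} (hΔ : 2 ≤ Δ) {t : ℝ} (h0 : 0 ≤ t) (h1 : t < 1 / ((Δ : ℝ) - 1)) :
    0 ≤ t / (1 + t) ∧ t / (1 + t) * Δ < 1 := by
  have h2 : (2 : ℝ) ≤ Δ := by exact_mod_cast hΔ
  have h3 : 0 < (Δ : ℝ) - 1 := by linarith
  rw [lt_div_iff₀ h3] at h1
  refine ⟨by positivity, ?_⟩
  rw [div_mul_eq_mul_div, div_lt_one (by linarith)]
  nlinarith

lemma spr_of_DD {Δ : ℕ} (G : SimpleGraph V) (hG : ∀ x, (univ.filter (fun y => G.Adj x y)).card ≤ Δ)
    {θ : ℝ} (hθ : 0 < θ) (w : V → ℂ) (hw : ∀ x, w x ∈ WW (DD Δ θ)) : SprLtOne G w := by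
  choose hw1 hw2 using hw
  choose q hq0 hq1 hq using hw2
  apply spr_lt G w hw1 q θ hq0 hq1 hθ
  intro x
  refine lt_of_le_of_lt ?_ (hq x)
  have : (1 + θ) ^ (Nb G x).card ≤ (1 + θ) ^ Δ := pow_le_pow_right₀ (by linarith) (hG x)
  gcongr

/-- **Theorem.** Let `Δ ≥ 2`.

(1) (Q1) There is a domain `D ⊇ [0, 1/(Δ-1))` such that for every finite graph `G` of maximum degree
at most `Δ` and every `z ∈ D`, `spr(P_{G,z}) < 1` for the uniform fugacity `w_x = z`.

(2) (part of Q2) For every `t₀ < 1/(Δ-1)` there is a domain `D ⊇ [0, t₀]` such that for every finite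
graph `G` of maximum degree at most `Δ` and every family of fugacities `w_x ∈ D`,
`spr(P_{G,w}) < 1`. -/
theorem result (Δ : ℕ) (hΔ : 2 ≤ Δ) :
    (∃ D : Set ℂ, IsOpen D ∧ IsConnected D ∧ (-1 : ℂ) ∉ D ∧
      (∀ t : ℝ, 0 ≤ t → t < 1 / ((Δ : ℝ) - 1) → (t : ℂ) ∈ D) ∧
      ∀ (V : Type) [Fintype V] (G : SimpleGraph V),
        (∀ x, (univ.filter (fun y => G.Adj x y)).card ≤ Δ) →
        ∀ z ∈ D, SprLtOne G (fun _ => z)) ∧
    (∀ t₀ : ℝ, t₀ < 1 / ((Δ : ℝ) - 1) →
      ∃ D : Set ℂ, IsOpen D ∧ IsConnected D ∧ (-1 : ℂ) ∉ D ∧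
      (∀ t : ℝ, 0 ≤ t → t ≤ t₀ → (t : ℂ) ∈ D) ∧
      ∀ (V : Type) [Fintype V] (G : SimpleGraph V),
        (∀ x, (univ.filter (fun y => G.Adj x y)).card ≤ Δ) →
        ∀ w : V → ℂ, (∀ x, w x ∈ D) → SprLtOne G w) := by
  have hreal : ∀ t : ℝ, ((t / (1 + t) : ℝ) : ℂ) = (t : ℂ) / (1 + (t : ℂ)) := by
    intro t; push_cast; ring
  have hne : ∀ t : ℝ, 0 ≤ t → (t : ℂ) ≠ -1 := by
    intro t ht h
    have h2 : t = -1 := by exact_mod_cast h
    linarith
  constructor
  · refine ⟨WW (⋃ θ : {θ : ℝ // 0 < θ}, DD Δ θ.1), ?_, ?_, fun h => h.1 rfl, ?_, ?_⟩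
    · exact WW_open (isOpen_iUnion fun θ => DD_open Δ θ.1)
    · apply WW_connected
      · refine ⟨⟨0, Set.mem_iUnion.2 ⟨⟨1, one_pos⟩, zero_mem_DD Δ one_pos⟩⟩, ?_⟩
        exact isPreconnected_iUnion ⟨0, Set.mem_iInter.2 fun θ => zero_mem_DD Δ θ.2⟩
          fun θ => (DD_convex Δ θ.2).isPreconnected
      · intro p hp
        obtain ⟨θ, hθ⟩ := Set.mem_iUnion.1 hp
        exact DD_ne_one hΔ θ.2 hθ
    · intro t h0 h1
      obtain ⟨hp0, hp1⟩ := real_p hΔ h0 h1
      obtain ⟨θ, hθ, h⟩ := exists_theta hΔ hp0 hp1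
      refine ⟨hne t h0, Set.mem_iUnion.2 ⟨⟨θ, hθ⟩, ?_⟩⟩
      have := h _ hp0 le_rfl
      rwa [hreal] at this
    · intro V _ G hG z hz
      obtain ⟨θ, hθ⟩ := Set.mem_iUnion.1 hz.2
      exact spr_of_DD G hG θ.2 (fun _ => z) (fun _ => ⟨hz.1, hθ⟩)
  · intro t₀ ht₀
    rcases lt_or_ge t₀ 0 with hneg | hpos
    · refine ⟨WW (DD Δ 1), WW_open (DD_open Δ 1),
        WW_connected ⟨⟨0, zero_mem_DD Δ one_pos⟩, (DD_convex Δ one_pos).isPreconnected⟩
          (fun p hp => DD_ne_one hΔ one_pos hp), fun h => h.1 rfl, ?_, ?_⟩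
      · intro t h0 h1; linarith
      · intro V _ G hG w hw
        exact spr_of_DD G hG one_pos w hw
    · obtain ⟨hp0, hp1⟩ := real_p hΔ hpos ht₀
      obtain ⟨θ, hθ, h⟩ := exists_theta hΔ hp0 hp1
      refine ⟨WW (DD Δ θ), WW_open (DD_open Δ θ),
        WW_connected ⟨⟨0, zero_mem_DD Δ hθ⟩, (DD_convex Δ hθ).isPreconnected⟩
          (fun p hp => DD_ne_one hΔ hθ hp), fun h => h.1 rfl, ?_, ?_⟩
      · intro t h0 h1
        refine ⟨hne t h0, ?_⟩
        have h2 : t / (1 + t) ≤ t₀ / (1 + t₀) := by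
          rw [div_le_div_iff₀ (by linarith) (by linarith)]
          nlinarith
        have := h (t / (1 + t)) (by positivity) h2
        rwa [hreal] at this
      · intro V _ G hG w hw
        exact spr_of_DD G hG hθ w hw

end

end Pool.Agent.Results.MP_eb4d96_pr.ComplexDobrushin
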